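import Pool.Agent.J4H61.QB.Stm3

set_option autoImplicit false

/-! # Project QB, piece (DPS) (helper16) -/

open Matrix MeasureTheory
open scoped ComplexOrder

namespace Pool.Agent.J4H16.QB
open Pool.Agent.V11219.MomentOp Pool.Agent.J4H61.QB

theorem psi_trace {dE : ℕ} (ψ : Fin dE → ℂ) (h : ∑ x, ‖ψ x‖ ^ 2 = 1) :
    (Matrix.vecMulVec ψ (star ψ)).trace = 1 := by
  rw [Matrix.trace]
  have h1 : ∀ x, (Matrix.vecMulVec ψ (star ψ)).diag x = ((‖ψ x‖ ^ 2 : ℝ) : ℂ) := by
    intro x
    rw [Matrix.diag_apply, Matrix.vecMulVec_apply, Pi.star_apply, Complex.star_def,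
      Complex.mul_conj, Complex.normSq_eq_norm_sq]
  simp only [h1]
  rw [← Complex.ofReal_sum, h, Complex.ofReal_one]

/-- (DPS) -/
theorem t_DPS : S_DPS := by
  intro d dE ψ hψ V X hX
  set M : Matrix (Fin d × Fin dE) (Fin d × Fin dE) ℂ :=
    Matrix.kronecker X (Matrix.vecMulVec ψ (star ψ)) with hM
  set W : Matrix (Fin d × Fin dE) (Fin d × Fin dE) ℂ := V.1 with hW
  have hMP : M.PosSemidef := hX.kronecker (Matrix.posSemidef_vecMulVec_self_star ψ)
  have hVP : (W * M * Wᴴ).PosSemidef := hMP.mul_mul_conjTranspose_same W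
  have hd : dilated ψ W X = ∑ x : Fin dE, (W * M * Wᴴ).submatrix (fun k => (k, x)) (fun k => (k, x)) := by
    ext k l
    rw [Matrix.sum_apply]
    rfl
  have hWW : Wᴴ * W = 1 := by
    have := (Matrix.mem_unitaryGroup_iff').1 V.2
    exact this
  refine ⟨?_, ?_⟩
  · rw [hd]
    exact Matrix.posSemidef_sum _ fun x _ => hVP.submatrix _
  · have h1 : (dilated ψ W X).trace = (W * M * Wᴴ).trace := by
      rw [hd, Matrix.trace_sum]
      simp only [Matrix.trace, Matrix.diag_apply, Matrix.submatrix_apply]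
      rw [Fintype.sum_prod_type, Finset.sum_comm]
    rw [h1, Matrix.trace_mul_comm, ← Matrix.mul_assoc, hWW, Matrix.one_mul, hM]
    have h2 := Matrix.trace_kronecker X (Matrix.vecMulVec ψ (star ψ))
    rw [psi_trace ψ hψ, mul_one] at h2
    exact h2

end Pool.Agent.J4H16.QB
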