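import Pool.Agent.J4H61.QB.Stm4
import Pool.Agent.J4H97.QB.Diag

set_option autoImplicit false

/-! # Project QB, piece (FEC) (helper16) -/

open Matrix MeasureTheory MvPolynomial
open scoped ComplexOrder

namespace Pool.Agent.J4H16.QB
open Pool.Agent.V11219.MomentOp Pool.Agent.J4H61.QB

variable {d : ℕ}

/-- the sign `(-1)^(d choose 2)` -/
def sg (d : ℕ) : ℤ := ∏ j : Fin d, (-1) ^ (j : ℕ)

theorem sg_sq (d : ℕ) : sg d * sg d = 1 := by
  unfold sg
  rw [← Finset.prod_mul_distrib]
  refine Finset.prod_eq_one fun j _ => ?_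
  rw [← mul_pow]
  norm_num

theorem vand_neg {R : Type*} [CommRing R] (v : Fin d → R) :
    ∏ i, ∏ j ∈ Finset.Ioi i, (v i - v j) = (sg d : R) * det (vandermonde v) := by
  have h1 : ∏ i, ∏ j ∈ Finset.Ioi i, (v i - v j) = det (vandermonde fun i => -v i) := by
    rw [det_vandermonde]
    exact Finset.prod_congr rfl fun i _ => Finset.prod_congr rfl fun j _ => by ring
  have h2 : vandermonde (fun i => -v i) =
      Matrix.of fun i j : Fin d => (-1 : R) ^ (j : ℕ) * vandermonde v i j := by
    ext i j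
    rw [vandermonde_apply, Matrix.of_apply, vandermonde_apply, ← mul_pow, neg_one_mul]
  rw [h1, h2, Matrix.det_mul_row]
  congr 1
  unfold sg
  push_cast
  rfl

theorem det_vand_perm {R : Type*} [CommRing R] (v : Fin d → R) (σ : Equiv.Perm (Fin d)) :
    det (vandermonde (v ∘ σ)) = ((Equiv.Perm.sign σ : ℤ) : R) * det (vandermonde v) := by
  rw [← Matrix.det_permute]
  rfl

theorem Dl_eq (u : Fin d → ℝ) : Dl u = (sg d : ℝ) * det (vandermonde u) := vand_neg u

theorem vp_eq (d : ℕ) : vp d = (sg d : MvPolynomial (Fin d) ℂ) * det (vandermonde X) := vand_neg _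

theorem Dl_perm (u : Fin d → ℝ) (σ : Equiv.Perm (Fin d)) :
    Dl (u ∘ σ) = ((Equiv.Perm.sign σ : ℤ) : ℝ) * Dl u := by
  rw [Dl_eq, Dl_eq, det_vand_perm]
  ring

theorem rename_vp (σ : Equiv.Perm (Fin d)) :
    rename σ (vp d) = ((Equiv.Perm.sign σ : ℤ) : MvPolynomial (Fin d) ℂ) * vp d := by
  have h1 : rename σ (det (vandermonde (X : Fin d → MvPolynomial (Fin d) ℂ))) =
      det (vandermonde (X ∘ σ : Fin d → MvPolynomial (Fin d) ℂ)) := by
    rw [AlgHom.map_det]
    congr 1
    ext1 i j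
    simp [vandermonde_apply]
  rw [vp_eq, map_mul, h1, det_vand_perm, map_intCast]
  ring

/-- the coefficients of `fp` -/
noncomputable def af (d t : ℕ) (m : Fin d → ℕ) : ℂ :=
  (t.factorial : ℂ) / (∏ i, ((m i).factorial : ℂ)) *
    ∫ U : Matrix.unitaryGroup (Fin d) ℂ, (Matrix.trace (U : Mat d)) ^ t *
      ∏ i, (star ((U : Mat d) i i)) ^ (m i) ∂(haarU (Fin d))

theorem coeff_fp (d t : ℕ) (m : Fin d →₀ ℕ) :
    coeff m (fp d t) = if ∑ i, m i = t then af d t m else 0 := by
  unfold fp
  rw [coeff_sum]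
  simp only [coeff_monomial]
  split_ifs with h
  · rw [Finset.sum_eq_single (m : Fin d → ℕ)]
    · rw [if_pos (by ext; simp)]
      rfl
    · intro m' _ hm'
      rw [if_neg]
      intro h2
      apply hm'
      rw [← h2]
      rfl
    · intro h2
      exfalso
      apply h2
      rw [Finset.mem_piAntidiag]
      exact ⟨h, fun _ _ => Finset.mem_univ _⟩
  · refine Finset.sum_eq_zero fun m' hm' => ?_
    rw [if_neg]
    intro h2
    apply h
    rw [← h2]
    exact (Finset.mem_piAntidiag.1 hm').1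

/-- a permutation matrix -/
noncomputable def pm (σ : Equiv.Perm (Fin d)) : Matrix.unitaryGroup (Fin d) ℂ :=
  ⟨(1 : Mat d).submatrix id σ, by
    rw [mem_unitaryGroup_iff, star_eq_conjTranspose, conjTranspose_submatrix, conjTranspose_one]
    rw [Matrix.submatrix_mul_equiv, one_mul]
    rfl⟩

theorem pm_conj (σ : Equiv.Perm (Fin d)) (U : Matrix.unitaryGroup (Fin d) ℂ) :
    (((pm σ)⁻¹ * (U * pm σ) : Matrix.unitaryGroup (Fin d) ℂ) : Mat d) =
      (U : Mat d).submatrix σ σ := by
  have h1 : (((pm σ)⁻¹ : Matrix.unitaryGroup (Fin d) ℂ) : Mat d) = (1 : Mat d).submatrix σ id := by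
    rw [UnitaryGroup.inv_val, star_eq_conjTranspose]
    change ((1 : Mat d).submatrix id σ)ᴴ = _
    rw [conjTranspose_submatrix, conjTranspose_one]
  rw [UnitaryGroup.mul_val, UnitaryGroup.mul_val, h1]
  change (1 : Mat d).submatrix σ id * ((U : Mat d) * (1 : Mat d).submatrix id σ) = _
  ext i j
  simp [Matrix.mul_apply, Matrix.one_apply]

theorem af_perm (t : ℕ) (m : Fin d → ℕ) (σ : Equiv.Perm (Fin d)) : af d t (m ∘ σ) = af d t m := by
  unfold af
  have h1 : ∏ i, (((m ∘ σ) i).factorial : ℂ) = ∏ i, ((m i).factorial : ℂ) :=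
    Equiv.prod_comp σ fun i => ((m i).factorial : ℂ)
  rw [h1]
  congr 1
  rw [← Pool.Agent.J4H97.QB.Diag.integral_conj (Fin d) (fun U => (Matrix.trace (U : Mat d)) ^ t *
      ∏ i, (star ((U : Mat d) i i)) ^ ((m ∘ σ) i)) (pm σ)]
  refine integral_congr_ae (ae_of_all _ fun U => ?_)
  dsimp only
  rw [pm_conj]
  have h2 : Matrix.trace ((U : Mat d).submatrix σ σ) = Matrix.trace (U : Mat d) := by
    simp only [Matrix.trace, Matrix.diag_apply, Matrix.submatrix_apply]
    exact Equiv.sum_comp σ fun i => (U : Mat d) i i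
  rw [h2]
  congr 1
  simp only [Matrix.submatrix_apply, Function.comp_apply]
  exact Equiv.prod_comp σ fun i => (star ((U : Mat d) i i)) ^ (m i)

theorem rename_fp (t : ℕ) (σ : Equiv.Perm (Fin d)) : rename σ (fp d t) = fp d t := by
  ext m
  set m' : Fin d →₀ ℕ := Finsupp.mapDomain σ.symm m with hm'
  have h1 : Finsupp.mapDomain σ m' = m := by
    rw [hm', ← Finsupp.mapDomain_comp]
    have : (σ ∘ σ.symm : Fin d → Fin d) = id := by ext; simp
    rw [this, Finsupp.mapDomain_id]
  have h2 : (m' : Fin d → ℕ) = (m : Fin d → ℕ) ∘ σ := by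
    funext i
    rw [hm', Finsupp.mapDomain_equiv_apply]
    rfl
  have h3 : coeff m (rename σ (fp d t)) = coeff m' (fp d t) := by
    conv_lhs => rw [← h1]
    exact coeff_rename_mapDomain σ σ.injective _ _
  rw [h3, coeff_fp, coeff_fp, h2, af_perm]
  have h4 : ∑ i, ((m : Fin d → ℕ) ∘ σ) i = ∑ i, m i := Equiv.sum_comp σ fun i => m i
  rw [h4]

theorem coeff_perm (t : ℕ) (σ : Equiv.Perm (Fin d)) (m : Fin d →₀ ℕ) :
    ((Equiv.Perm.sign σ : ℤ) : ℂ) * coeff (Finsupp.mapDomain σ m) (vp d * fp d t) =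
      coeff m (vp d * fp d t) := by
  have h1 : rename σ (vp d * fp d t) =
      ((Equiv.Perm.sign σ : ℤ) : MvPolynomial (Fin d) ℂ) * (vp d * fp d t) := by
    rw [map_mul, rename_vp, rename_fp]
    ring
  have h2 := coeff_rename_mapDomain σ σ.injective (vp d * fp d t) m
  rw [h1] at h2
  rw [← h2]
  have h3 : ((Equiv.Perm.sign σ : ℤ) : MvPolynomial (Fin d) ℂ) =
      C (((Equiv.Perm.sign σ : ℤ) : ℂ)) := by
    rw [map_intCast]
  rw [h3, coeff_C_mul]

theorem coeff_zero_of_not_inj (t : ℕ) {m : Fin d →₀ ℕ} (hm : ¬ Function.Injective m) :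
    coeff m (vp d * fp d t) = 0 ∧ Dl (rl m) = 0 := by
  rw [Function.Injective] at hm
  push Not at hm
  obtain ⟨i, j, hij, hne⟩ := hm
  have hsw : ∀ k, m ((Equiv.swap i j) k) = m k := by
    intro k
    rcases eq_or_ne k i with rfl | hki
    · rw [Equiv.swap_apply_left]; exact hij.symm
    · rcases eq_or_ne k j with rfl | hkj
      · rw [Equiv.swap_apply_right]; exact hij
      · rw [Equiv.swap_apply_of_ne_of_ne hki hkj]
  have hs : ((Equiv.Perm.sign (Equiv.swap i j) : ℤ)) = -1 := by
    rw [Equiv.Perm.sign_swap hne]; rfl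
  constructor
  · have h1 : Finsupp.mapDomain (Equiv.swap i j) m = m := by
      ext k
      rw [Finsupp.mapDomain_equiv_apply, Equiv.symm_swap]
      exact hsw k
    have h2 := coeff_perm t (Equiv.swap i j) m
    rw [h1, hs] at h2
    push_cast at h2
    linear_combination (-1 / 2 : ℂ) * h2
  · have h1 : rl (m : Fin d → ℕ) ∘ (Equiv.swap i j) = rl m := by
      funext k
      simp only [rl, Function.comp_apply, hsw]
    have h2 := Dl_perm (rl m) (Equiv.swap i j)
    rw [h1, hs] at h2
    push_cast at h2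
    linarith

theorem fp_zero (d : ℕ) : fp d 0 = 1 := by
  ext m
  rw [coeff_one, coeff_fp]
  by_cases h : m = 0
  · subst h
    rw [if_pos (by simp), if_pos rfl]
    unfold af
    simp
  · rw [if_neg (fun h2 : (0 : Fin d →₀ ℕ) = m => h h2.symm), if_neg]
    intro h2
    apply h
    ext i
    have := (Finset.sum_eq_zero_iff.1 h2) i (Finset.mem_univ i)
    simpa using this

/-- the exponents `0, 1, ..., d - 1` -/
noncomputable def m0 (d : ℕ) : Fin d →₀ ℕ := Finsupp.equivFunOnFinite.symm fun i => (i : ℕ)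

theorem m0_apply (i : Fin d) : m0 d i = (i : ℕ) := rfl

theorem coeff_V (d : ℕ) :
    coeff (m0 d) (det (vandermonde (X : Fin d → MvPolynomial (Fin d) ℂ))) = 1 := by
  rw [det_apply', coeff_sum]
  have h : ∀ σ : Equiv.Perm (Fin d), coeff (m0 d)
      (((Equiv.Perm.sign σ : ℤ) : MvPolynomial (Fin d) ℂ) * ∏ i, vandermonde X (σ i) i) =
      ((Equiv.Perm.sign σ : ℤ) : ℂ) *
        if (∑ i, Finsupp.single (σ i) (i : ℕ)) = m0 d then 1 else 0 := by
    intro σ
    have h1 : ∏ i, vandermonde (X : Fin d → MvPolynomial (Fin d) ℂ) (σ i) i =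
        monomial (∑ i, Finsupp.single (σ i) (i : ℕ)) 1 := by
      rw [monomial_sum_one]
      refine Finset.prod_congr rfl fun i _ => ?_
      rw [vandermonde_apply, X_pow_eq_monomial]
    have h3 : ((Equiv.Perm.sign σ : ℤ) : MvPolynomial (Fin d) ℂ) =
        C (((Equiv.Perm.sign σ : ℤ) : ℂ)) := by
      rw [map_intCast]
    rw [h1, h3, coeff_C_mul, coeff_monomial]
  simp only [h]
  have he : ∀ (σ : Equiv.Perm (Fin d)) (k : Fin d),
      (∑ i, Finsupp.single (σ i) (i : ℕ)) (σ k) = (k : ℕ) := by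
    intro σ k
    rw [Finsupp.finsetSum_apply, Finset.sum_eq_single k]
    · simp
    · intro i _ hi
      rw [Finsupp.single_apply, if_neg]
      exact fun h => hi (σ.injective h)
    · simp
  rw [Finset.sum_eq_single 1]
  · rw [if_pos]
    · simp
    · ext k
      exact he 1 k
  · intro σ _ hσ
    rw [if_neg, mul_zero]
    intro h2
    apply hσ
    ext k
    have h3 := he σ k
    rw [h2, m0_apply] at h3
    rw [Equiv.Perm.one_apply]
    exact h3
  · simp

theorem lt_of_sum {m : Fin d → ℕ} (hm : Function.Injective m) (hs : ∑ i, m i = d.choose 2) (i : Fin d) :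
    m i < d := by
  classical
  by_contra hi
  push Not at hi
  set S : Finset ℕ := Finset.univ.image m with hS
  have hc : S.card = d := by
    rw [hS, Finset.card_image_of_injective _ hm, Finset.card_univ, Fintype.card_fin]
  have hsum : ∑ x ∈ S, x = d.choose 2 := by
    rw [hS, Finset.sum_image (fun _ _ _ _ h => hm h), hs]
  have hr : ∑ x ∈ Finset.range d, x = d.choose 2 := by
    rw [Finset.sum_range_id, Nat.choose_two_right]
  have h1 := Finset.sum_inter_add_sum_sdiff S (Finset.range d) (fun x => x)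
  have h2 := Finset.sum_inter_add_sum_sdiff (Finset.range d) S (fun x => x)
  rw [Finset.inter_comm] at h2
  have h3 : (S \ Finset.range d).card = (Finset.range d \ S).card :=
    Finset.card_sdiff_comm (by rw [hc, Finset.card_range])
  have h4 : (S \ Finset.range d).card * d ≤ ∑ x ∈ S \ Finset.range d, x := by
    rw [← smul_eq_mul]
    refine Finset.card_nsmul_le_sum _ _ _ fun x hx => ?_
    rw [Finset.mem_sdiff, Finset.mem_range] at hx
    omega
  have h5 : m i ∈ S \ Finset.range d := by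
    rw [Finset.mem_sdiff, Finset.mem_range]
    exact ⟨Finset.mem_image_of_mem _ (Finset.mem_univ _), by omega⟩
  have h6 : (Finset.range d \ S).Nonempty := by
    rw [← Finset.card_pos, ← h3]
    exact Finset.card_pos.2 ⟨_, h5⟩
  have h7 : ∑ x ∈ Finset.range d \ S, x < (Finset.range d \ S).card * d := by
    rw [← smul_eq_mul, ← Finset.sum_const]
    refine Finset.sum_lt_sum_of_nonempty h6 fun x hx => ?_
    rw [Finset.mem_sdiff, Finset.mem_range] at hx
    exact hx.1
  rw [h3] at h4
  omega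

theorem D0_pos (d : ℕ) : 0 < det (vandermonde (rl (m0 d : Fin d → ℕ))) := by
  rw [det_vandermonde]
  refine Finset.prod_pos fun i _ => Finset.prod_pos fun j hj => ?_
  rw [Finset.mem_Ioi] at hj
  have h : (i : ℕ) < (j : ℕ) := hj
  simp only [rl, m0_apply]
  exact sub_pos.2 (by exact_mod_cast h)

theorem fa_pos (m : Fin d → ℕ) : 0 < fa m := by
  unfold fa
  exact_mod_cast Finset.prod_pos fun i _ => Nat.factorial_pos _

/-- the constant -/
noncomputable def c0 (d : ℕ) : ℝ := (fa (m0 d : Fin d → ℕ)) ^ 2 / det (vandermonde (rl (m0 d : Fin d → ℕ)))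

theorem c0_pos (d : ℕ) : 0 < c0 d := div_pos (pow_pos (fa_pos _) 2) (D0_pos d)

theorem base (m : Fin d →₀ ℕ) (hm : ∑ i, m i = d.choose 2) :
    coeff m (vp d * fp d 0) = ((c0 d * Dl (rl m) / (fa m) ^ 2 : ℝ) : ℂ) := by
  by_cases hinj : Function.Injective m
  · set τ : Equiv.Perm (Fin d) := Equiv.ofBijective
      (fun i => (⟨m i, lt_of_sum hinj hm i⟩ : Fin d))
      (Finite.injective_iff_bijective.1 (by
        intro i j hij
        apply hinj
        exact congrArg Fin.val hij)) with hτd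
    have hτ : ∀ i, m i = (τ i : ℕ) := fun i => rfl
    have h1 : Finsupp.mapDomain τ.symm (m0 d) = m := by
      ext i
      rw [Finsupp.mapDomain_equiv_apply, m0_apply, Equiv.symm_symm]
      exact (hτ i).symm
    have h2 := coeff_perm 0 τ.symm (m0 d)
    rw [h1] at h2
    have h3 : coeff (m0 d) (vp d * fp d 0) = (sg d : ℂ) := by
      have h4 : ((sg d : ℤ) : MvPolynomial (Fin d) ℂ) = C ((sg d : ℤ) : ℂ) := by
        rw [map_intCast]
      rw [fp_zero, mul_one, vp_eq, h4, coeff_C_mul, coeff_V, mul_one]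
    rw [h3, Equiv.Perm.sign_symm] at h2
    have h5 : ((Equiv.Perm.sign τ : ℤ) : ℂ) * ((Equiv.Perm.sign τ : ℤ) : ℂ) = 1 := by
      have : ((Equiv.Perm.sign τ : ℤ)) * ((Equiv.Perm.sign τ : ℤ)) = 1 := by
        rw [← Units.val_mul, Int.units_mul_self]
        rfl
      exact_mod_cast this
    have h6 : coeff m (vp d * fp d 0) = ((Equiv.Perm.sign τ : ℤ) : ℂ) * (sg d : ℂ) := by
      rw [← h2, ← mul_assoc, h5, one_mul]
    have h7 : rl (m : Fin d → ℕ) = rl (m0 d : Fin d → ℕ) ∘ τ := by
      funext i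
      simp only [rl, Function.comp_apply, m0_apply, hτ]
    have h8 : fa (m : Fin d → ℕ) = fa (m0 d : Fin d → ℕ) := by
      unfold fa
      congr 1
      have := Equiv.prod_comp τ fun i : Fin d => (i : ℕ).factorial
      simpa only [hτ, m0_apply] using this
    rw [h6, h7, Dl_perm, h8, Dl_eq]
    have h9 : c0 d * (((Equiv.Perm.sign τ : ℤ) : ℝ) * ((sg d : ℝ) *
        det (vandermonde (rl (m0 d : Fin d → ℕ))))) / (fa (m0 d : Fin d → ℕ)) ^ 2 =
        ((Equiv.Perm.sign τ : ℤ) : ℝ) * (sg d : ℝ) := by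
      unfold c0
      have e1 := (D0_pos d).ne'
      have e2 := (fa_pos (m0 d : Fin d → ℕ)).ne'
      field_simp
    rw [h9]
    push_cast
    rfl
  · obtain ⟨h1, h2⟩ := coeff_zero_of_not_inj 0 hinj
    rw [h1, h2]
    simp

theorem euler (d t : ℕ) : ∑ i, X i * pderiv i (fp d t) = C (t : ℂ) * fp d t := by
  have h : (fp d t).IsHomogeneous t := by
    intro m hm
    rw [coeff_fp] at hm
    have h1 : ∑ i, m i = t := by
      by_contra h2
      exact hm (if_neg h2)
    rw [← h1, ← Finsupp.degree_eq_sum, Finsupp.degree_eq_weight_one]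
    rfl
  rw [h.sum_X_mul_pderiv, nsmul_eq_mul, map_natCast]

theorem step_term (t : ℕ) (c : ℝ) (m : Fin d →₀ ℕ) (hm : ∑ i, m i = t + 1 + d.choose 2)
    (IH : ∀ m : Fin d →₀ ℕ, ∑ i, m i = t + d.choose 2 →
      coeff m (vp d * fp d t) = ((c * Dl (rl m) / (fa m) ^ 2 : ℝ) : ℂ)) (i : Fin d) :
    coeff m (vp d * fp d t * X i) = ((c * ((rl m i) ^ 2 *
      Dl (Function.update (rl m) i (rl m i - 1))) / (fa m) ^ 2 : ℝ) : ℂ) := by
  classical
  rw [coeff_mul_X']
  split_ifs with h
  · have hmi : 1 ≤ m i := Nat.one_le_iff_ne_zero.2 (Finsupp.mem_support_iff.1 h)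
    set m' : Fin d →₀ ℕ := m - Finsupp.single i 1 with hm'
    have h1 : ∀ k, m' k = if k = i then m i - 1 else m k := by
      intro k
      rw [hm', Finsupp.tsub_apply, Finsupp.single_apply]
      by_cases hk : i = k
      · subst hk; simp
      · rw [if_neg hk, if_neg (Ne.symm hk), Nat.sub_zero]
    have h2 : ∑ k, m' k = t + d.choose 2 := by
      have e1 : ∑ k, m k = m i + ∑ k ∈ Finset.univ.erase i, m k :=
        (Finset.add_sum_erase _ _ (Finset.mem_univ i)).symm
      have e2 : ∑ k, m' k = m' i + ∑ k ∈ Finset.univ.erase i, m' k :=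
        (Finset.add_sum_erase _ _ (Finset.mem_univ i)).symm
      have e3 : ∑ k ∈ Finset.univ.erase i, m' k = ∑ k ∈ Finset.univ.erase i, m k := by
        refine Finset.sum_congr rfl fun k hk => ?_
        rw [h1, if_neg (Finset.ne_of_mem_erase hk)]
      rw [e2, e3, h1, if_pos rfl]
      omega
    rw [IH m' h2]
    have h3 : rl (m' : Fin d → ℕ) = Function.update (rl m) i (rl m i - 1) := by
      funext k
      by_cases hk : k = i
      · subst hk
        rw [Function.update_self]
        simp only [rl]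
        rw [h1, if_pos rfl, Nat.cast_sub hmi, Nat.cast_one]
      · rw [Function.update_of_ne hk]
        simp only [rl]
        rw [h1, if_neg hk]
    have h4 : fa (m : Fin d → ℕ) = rl m i * fa (m' : Fin d → ℕ) := by
      unfold fa rl
      rw [← Nat.cast_mul]
      congr 1
      have e1 : ∏ k, (m k).factorial = (m i).factorial * ∏ k ∈ Finset.univ.erase i, (m k).factorial :=
        (Finset.mul_prod_erase _ (fun k => (m k).factorial) (Finset.mem_univ i)).symm
      have e2 : ∏ k, (m' k).factorial =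
          (m' i).factorial * ∏ k ∈ Finset.univ.erase i, (m' k).factorial :=
        (Finset.mul_prod_erase _ (fun k => (m' k).factorial) (Finset.mem_univ i)).symm
      have e3 : ∏ k ∈ Finset.univ.erase i, (m' k).factorial =
          ∏ k ∈ Finset.univ.erase i, (m k).factorial := by
        refine Finset.prod_congr rfl fun k hk => ?_
        rw [h1, if_neg (Finset.ne_of_mem_erase hk)]
      rw [e1, e2, e3, h1, if_pos rfl, ← mul_assoc, Nat.mul_factorial_pred (by omega)]
    rw [h3, h4]
    have h5 : rl (m : Fin d → ℕ) i ≠ 0 := by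
      simp only [rl]
      exact_mod_cast (by omega : m i ≠ 0)
    have h6 := (fa_pos (m' : Fin d → ℕ)).ne'
    congr 1
    field_simp
  · have hmi : m i = 0 := Finsupp.notMem_support_iff.1 h
    have h5 : rl (m : Fin d → ℕ) i = 0 := by
      simp only [rl]
      exact_mod_cast hmi
    rw [h5]
    simp

/-- (FEC) -/
theorem t_FEC : S_C2P → S_RAD → S_NN → S_E0 → S_FEC := by
  intro hC hR hN hE d
  refine ⟨fun t => (t.factorial : ℝ) ^ 2 * c0 d, fun t => mul_pos
    (pow_pos (by exact_mod_cast t.factorial_pos) 2) (c0_pos d), ?_⟩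
  intro t
  induction t with
  | zero =>
    intro m hm
    rw [zero_add] at hm
    rw [base m hm]
    simp
  | succ t IH =>
    intro m hm
    by_cases hinj : Function.Injective m
    · obtain ⟨s, hs1, hs2⟩ := hC d t
      have he := euler d (t + 1)
      have hr := hR d ((t + 1 : ℕ) : ℂ) (fp d (t + 1)) s hs1 he m
      have e0 : (((t + 1 : ℕ) : ℂ)) = (t : ℂ) + 1 := by push_cast; ring
      rw [e0, hs2] at hr
      have e1 : vp d * (C (((t : ℂ) + 1) ^ 2) * ((∑ i, X i) * fp d t)) =
          C (((t : ℂ) + 1) ^ 2) * ∑ i, vp d * fp d t * X i := by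
        rw [← Finset.mul_sum]
        ring
      rw [e1, coeff_C_mul, coeff_sum] at hr
      simp only [step_term t _ m hm IH] at hr
      have hn := (hN d (rl m)).2.2
      have e2 : ∑ i, (((t.factorial : ℝ) ^ 2 * c0 d * ((rl (m : Fin d → ℕ) i) ^ 2 *
          Dl (Function.update (rl m) i (rl m i - 1))) / (fa m) ^ 2 : ℝ) : ℂ) =
          (((t.factorial : ℝ) ^ 2 * c0 d / (fa m) ^ 2 * (((∑ i, (rl (m : Fin d → ℕ) i) ^ 2) -
            ((d : ℝ) - 1) * (∑ i, rl m i) + (d.choose 3 : ℝ)) * Dl (rl m)) : ℝ) : ℂ) := by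
        rw [← hn, Finset.mul_sum]
        push_cast
        refine Finset.sum_congr rfl fun i _ => ?_
        ring
      rw [e2] at hr
      set E : ℝ := (∑ i, (rl (m : Fin d → ℕ) i) ^ 2) - ((d : ℝ) - 1) * (∑ i, rl m i) +
        (d.choose 3 : ℝ) with hEd
      have hE0 : 0 < E := hE d m hinj (by omega)
      have e3 : ((∑ i, ((m i : ℂ)) ^ 2) - ((d : ℂ) - 1) * (∑ i, (m i : ℂ)) + (d.choose 3 : ℂ)) =
          (E : ℂ) := by
        rw [hEd]
        simp only [rl]
        push_cast
        rfl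
      rw [e3] at hr
      have hE1 : (E : ℂ) ≠ 0 := by exact_mod_cast hE0.ne'
      apply mul_left_cancel₀ hE1
      rw [← hr]
      have hf : (((t + 1).factorial : ℕ) : ℝ) = ((t : ℝ) + 1) * t.factorial := by
        rw [Nat.factorial_succ]
        push_cast
        ring
      dsimp only
      rw [hf]
      push_cast
      ring
    · obtain ⟨h1, h2⟩ := coeff_zero_of_not_inj (t + 1) hinj
      rw [h1, h2]
      simp

end Pool.Agent.J4H16.QB
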