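import Pool.Agent.J4H61.QB.Stm3

set_option autoImplicit false

/-! # Project QB, pieces (HSN), (KST) (helper16) -/

open Matrix MeasureTheory
open scoped ComplexOrder

namespace Pool.Agent.J4H16.QB
open Pool.Agent.V11219.MomentOp Pool.Agent.J4H61.QB

theorem adj_apply {d t : ℕ} (A : MatT d t →ₗ[ℂ] MatT d t) (X : MatT d t) (i j : Fin t → Fin d) :
    adj A X i j = ∑ k, ∑ l, X k l * star (A (Matrix.single i j 1) k l) := rfl

theorem adj_single {d t : ℕ} (A : MatT d t →ₗ[ℂ] MatT d t) (k l i j : Fin t → Fin d) :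
    adj A (Matrix.single k l 1) i j = star (A (Matrix.single i j 1) k l) := by
  rw [adj_apply, Finset.sum_eq_single k, Finset.sum_eq_single l]
  · simp
  · intro l' _ hl'
    rw [Matrix.single_apply_of_ne (h := fun h => hl' h.2.symm), zero_mul]
  · simp
  · intro k' _ hk'
    refine Finset.sum_eq_zero fun l' _ => ?_
    rw [Matrix.single_apply_of_ne (h := fun h => hk' h.1.symm), zero_mul]
  · simp

theorem trace_sq {ι : Type} [Fintype ι] (M : Matrix ι ι ℂ) :
    (Matrix.trace (Mᴴ * M)).re = ∑ i, ∑ j, ‖M i j‖ ^ 2 := by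
  rw [Matrix.trace, Complex.re_sum, Finset.sum_comm]
  refine Finset.sum_congr rfl fun j _ => ?_
  rw [Matrix.diag_apply, Matrix.mul_apply, Complex.re_sum]
  refine Finset.sum_congr rfl fun i _ => ?_
  rw [Matrix.conjTranspose_apply]
  have h : star (M i j) * M i j = ((‖M i j‖ ^ 2 : ℝ) : ℂ) := by
    rw [Complex.star_def, mul_comm, Complex.mul_conj, Complex.normSq_eq_norm_sq]
  rw [h, Complex.ofReal_re]

/-- (HSN) -/
theorem t_HSN : S_HSN := by
  intro d t A
  have h : ∀ k l : Fin t → Fin d, (Matrix.trace ((adj A (Matrix.single k l 1))ᴴ *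
      adj A (Matrix.single k l 1))).re = ∑ i, ∑ j, ‖A (Matrix.single i j 1) k l‖ ^ 2 := by
    intro k l
    rw [trace_sq]
    refine Finset.sum_congr rfl fun i _ => Finset.sum_congr rfl fun j _ => ?_
    rw [adj_single, norm_star]
  simp only [h]
  unfold hsNormSq
  calc ∑ i, ∑ j, ∑ k, ∑ l, ‖A (Matrix.single i j 1) k l‖ ^ 2
      = ∑ p : ((Fin t → Fin d) × (Fin t → Fin d)), ∑ q : ((Fin t → Fin d) × (Fin t → Fin d)),
        ‖A (Matrix.single p.1 p.2 1) q.1 q.2‖ ^ 2 := by
        rw [Fintype.sum_prod_type]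
        refine Finset.sum_congr rfl fun i _ => Finset.sum_congr rfl fun j _ => ?_
        rw [Fintype.sum_prod_type]
    _ = ∑ q : ((Fin t → Fin d) × (Fin t → Fin d)), ∑ p : ((Fin t → Fin d) × (Fin t → Fin d)),
        ‖A (Matrix.single p.1 p.2 1) q.1 q.2‖ ^ 2 := Finset.sum_comm
    _ = _ := by
        rw [Fintype.sum_prod_type]
        refine Finset.sum_congr rfl fun i _ => Finset.sum_congr rfl fun j _ => ?_
        rw [Fintype.sum_prod_type]

theorem sum_single_one {d t : ℕ} (A : MatT d t →ₗ[ℂ] MatT d t) :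
    A 1 = ∑ i, A (Matrix.single i i 1) := by
  rw [← map_sum]
  congr 1
  ext a b
  rw [Matrix.sum_apply]
  by_cases hab : a = b
  · subst hab
    rw [Finset.sum_eq_single a]
    · simp
    · intro i _ hi
      simp [Matrix.single_apply, hi]
    · simp
  · rw [Matrix.one_apply_ne hab]
    symm
    refine Finset.sum_eq_zero fun i _ => ?_
    rw [Matrix.single_apply, if_neg]
    rintro ⟨h1, h2⟩
    exact hab (h1.symm.trans h2)

theorem trace_adj {d t : ℕ} (A : MatT d t →ₗ[ℂ] MatT d t) (Z : MatT d t) :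
    Matrix.trace (adj A Z) = Matrix.trace ((A 1)ᴴ * Z) := by
  have h1 : Matrix.trace (adj A Z) = ∑ k, ∑ l, Z k l * star ((A 1) k l) := by
    rw [Matrix.trace]
    simp only [Matrix.diag_apply, adj_apply]
    rw [Finset.sum_comm]
    refine Finset.sum_congr rfl fun k _ => ?_
    rw [Finset.sum_comm]
    refine Finset.sum_congr rfl fun l _ => ?_
    rw [← Finset.mul_sum, sum_single_one, Matrix.sum_apply, star_sum]
  rw [h1, Matrix.trace, Finset.sum_comm]
  refine Finset.sum_congr rfl fun l _ => ?_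
  rw [Matrix.diag_apply, Matrix.mul_apply]
  refine Finset.sum_congr rfl fun k _ => ?_
  rw [Matrix.conjTranspose_apply, mul_comm]

/-- (KST) -/
theorem t_KST : S_KST := by
  intro d t A hA Y
  have h1 := (hA.2 Y).trace_nonneg
  rw [Matrix.trace_sub, trace_adj] at h1
  have h2 : (0 : ℝ) ≤ (Matrix.trace ((A 1)ᴴ * (Yᴴ * Y)) -
      Matrix.trace ((adj A Y)ᴴ * adj A Y)).re := (Complex.le_def.1 h1).1
  rw [Complex.sub_re] at h2
  linarith

end Pool.Agent.J4H16.QB
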